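import Mathlib
import Pool.Agent.V5helper95.PI.Cls
import Pool.Agent.Y109.PI.Sym

/-! Unramified period-index for abelian varieties of every dimension: at least half of the classes of prime period, and
almost all if the Picard number is at least two.

Let `A` be an abelian variety of dimension `g` over an algebraically closed field `k`, with function field `K`, and let
`n` be prime to the characteristic. The group `H^1(A, μ_n)` has a basis given by functions `z_1, ..., z_(2g)` on `A`
whose divisors are divisible by `n`, and `Br(A)[n]` is generated by the symbols `(z_u, z_v)`. A divisor class on `A`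
which is not divisible by any prime number gives a relation `∑ w(u, v) (z_u, z_v) = 0` with `w - wᵀ ≢ 0` modulo every
prime number (`NS(A)` is saturated in the second cohomology), and two divisor classes which are part of a basis of
`NS(A)` give two relations that are independent modulo every prime number. So the theorem says, for **every** abelian
variety of dimension `g`:

(1) at least half of the classes in `Br(A)[p]`, `p` prime, are sums of `g - 1` symbols and have index dividing
`p ^ (g - 1)`, as predicted by the conjecture; if the Picard number is at least two, this holds for all classes in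
`Br(A)[p]` with at most `2 |Br(A)[p]| / (p + 1)` exceptions;

(2) the same holds for all `n`, with the proportion `∏ c_p` over the prime divisors of `n`: `c_p = 1 / 2` if `p ^ 2` does
not divide `n` and `c_p = max (1 / 6, 1 / 2 - 3 / (2 p))` if it does; if the Picard number is at least two, `c_p` is
`max (1 / 2, 1 - 2 / (p + 1))` or `max (1 / 6, 1 - 4 / p)`, respectively.

The proportions do not depend on `g`, and there is no condition on the polarisation, the endomorphisms, or on `p`
(the starting results need about `g` independent divisor classes). For `g = 3` all classes are known (Hotchkiss and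
Perry); for `g ≥ 4` this was not known for any class outside of special families.

Proof. The classes are given by alternating forms `w` over `ℤ / n`, modulo the span of the forms `D` of the relations. If
`w + t D` is degenerate over `𝔽_p` then it is a sum of `g - 1` decomposable forms. The number of `t` such that
`w + t D` is degenerate has average at least one and its second moment is small: both are computed by counting
kernel vectors (for a lower bound for the number of degenerate forms we use the numbers of kernel vectors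
`p ^ 2 - 1`, `p ^ 4 - 1`, ...). So at least half of the forms have a degenerate translate, by inclusion and exclusion,
and if there are two relations almost all have one, by the inequality of Cauchy and Schwarz. For `p ^ 2 ∣ n` we use the
translates with a two-dimensional kernel on which `D` is nonzero, and these lift to all powers of `p` (as in Hensel's
lemma). -/

set_option autoImplicit false
set_option linter.all false

open scoped TensorProduct

namespace Pool.Agent.Results.MP_43d240_ag.HalfOfClasses

open Pool.Agent.Helper18.Br Pool.Agent.H552R3.SymBr Pool.Agent.H552R3.SymPred Pool.Agent.Y109.PI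
  Pool.Agent.V5helper95.PI

universe u

/-- the proportion for one relation -/
theorem one_nonneg (n p : ℕ) :
    (0 : ℚ) ≤ if p ^ 2 ∣ n then max (1 / 6) (1 / 2 - 3 / (2 * (p : ℚ))) else 1 / 2 := by
  split_ifs
  · exact le_trans (by norm_num) (le_max_left _ _)
  · norm_num

theorem two_nonneg (n p : ℕ) :
    (0 : ℚ) ≤ if p ^ 2 ∣ n then max (1 / 6) (1 - 4 / (p : ℚ)) else max (1 / 2) (1 - 2 / ((p : ℚ) + 1)) := by
  split_ifs
  · exact le_trans (by norm_num) (le_max_left _ _)
  · exact le_trans (by norm_num) (le_max_left _ _)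

/-- Let `K` be an extension of an algebraically closed field `k`, let `ζ ∈ K` be a primitive `n`-th root of unity and
let `z_1, ..., z_{2g}` (`g ≥ 1`, indexed by two copies of `{1, ..., g}`) be nonzero elements of `K`. Let `S` be the
subgroup of `Br(K)` generated by the symbols `θ u v = (z_u, z_v)` of degree `n`, and `T` the set of the classes in `S`
which are sums of `g - 1` symbols of degree `n` and whose index divides `n ^ (g - 1)`. Then `S` is finite, and:

(1) if there is an integral matrix `w` with `∑ w(u, v) (z_u, z_v) = 0` such that `w - wᵀ` is nonzero modulo every prime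
divisor of `n`, then `|T| ≥ |S| ∏ c_p`, the product over the prime divisors of `n`, where `c_p = 1 / 2` if `p ^ 2` does not
divide `n`, and `c_p = max (1 / 6, 1 / 2 - 3 / (2 p))` if `p ^ 2` divides `n`; so `|T| ≥ |S| / 2` if `n` is prime;

(2) if there are two integral matrices `w`, `w'` with `∑ w(u, v) (z_u, z_v) = ∑ w'(u, v) (z_u, z_v) = 0` such that
`w - wᵀ` and `w' - w'ᵀ` are linearly independent modulo every prime divisor of `n`, then `|T| ≥ |S| ∏ c'_p`, where
`c'_p = max (1 / 2, 1 - 2 / (p + 1))` if `p ^ 2` does not divide `n` and `c'_p = max (1 / 6, 1 - 4 / p)` if `p ^ 2` divides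
`n`. -/
theorem result {k K : Type u} [Field k] [IsAlgClosed k] [Field K] [Algebra k K] (n : ℕ) (hn : 0 < n)
    (ζ : K) (hζ : IsPrimitiveRoot ζ n) (g : ℕ) (hg : 0 < g) (z : Fin g ⊕ Fin g → Kˣ)
    (θ : Fin g ⊕ Fin g → Fin g ⊕ Fin g → BrauerGroup.{u, u} K) (hθ : ∀ u v, IsSym n ζ (z u) (z v) (θ u v))
    (S : Subgroup (BrauerGroup.{u, u} K)) (hS : S = Subgroup.closure {γ | ∃ u v, γ = θ u v})
    (T : Set (BrauerGroup.{u, u} K))
    (hT : T = {α | α ∈ S ∧ (∃ (s t : Fin (g - 1) → Kˣ) (σ : Fin (g - 1) → BrauerGroup.{u, u} K),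
      (∀ i, IsSym n ζ (s i) (t i) (σ i)) ∧ α = ∏ i, σ i) ∧ IndDvd α (n ^ (g - 1))}) :
    Finite S ∧
    (∀ w : Fin g ⊕ Fin g → Fin g ⊕ Fin g → ℤ, ∏ u, ∏ v, θ u v ^ w u v = 1 →
      (∀ p : ℕ, p.Prime → p ∣ n → ∃ u v, ¬ (p : ℤ) ∣ w u v - w v u) →
      (Nat.card S : ℚ) * ∏ p ∈ n.primeFactors,
        (if p ^ 2 ∣ n then max (1 / 6) (1 / 2 - 3 / (2 * (p : ℚ))) else 1 / 2) ≤ Nat.card T) ∧
    (∀ w w' : Fin g ⊕ Fin g → Fin g ⊕ Fin g → ℤ, ∏ u, ∏ v, θ u v ^ w u v = 1 → ∏ u, ∏ v, θ u v ^ w' u v = 1 →
      (∀ p : ℕ, p.Prime → p ∣ n → ∀ a b : ℤ,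
        (∀ u v, (p : ℤ) ∣ a * (w u v - w v u) + b * (w' u v - w' v u)) → (p : ℤ) ∣ a ∧ (p : ℤ) ∣ b) →
      (Nat.card S : ℚ) * ∏ p ∈ n.primeFactors,
        (if p ^ 2 ∣ n then max (1 / 6) (1 - 4 / (p : ℚ)) else max (1 / 2) (1 - 2 / ((p : ℚ) + 1))) ≤
        Nat.card T) := by
  classical
  have hQ : ∀ w, Q (symHom hn hζ) z w = ∏ u, ∏ v, θ u v ^ w u v := by
    intro w
    rw [Q, Fintype.prod_prod_type]
    refine Finset.prod_congr rfl fun u _ => Finset.prod_congr rfl fun v _ => ?_
    rw [(isSym_iff hn hζ (z u) (z v) (θ u v)).1 (hθ u v), symHom_apply]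
  have hI : Fintype.card (Fin g ⊕ Fin g) = 2 * g := by simp [two_mul]
  let H : Subgroup Kˣ := (Units.map (algebraMap k K).toMonoidHom).range
  have hneg : (-1 : Kˣ) ∈ H := by
    refine ⟨-1, ?_⟩
    ext
    simp
  -- constants are `n`-th powers
  have hconst : ∀ a ∈ H, ∀ b, symHom hn hζ a b = 1 := by
    rintro _ ⟨c, rfl⟩ b
    obtain ⟨d, hd⟩ := IsAlgClosed.exists_pow_nat_eq (c : k) hn
    have hd0 : d ≠ 0 := by
      rintro rfl
      rw [zero_pow hn.ne'] at hd
      exact c.ne_zero hd.symm
    have hc : c = (Units.mk0 d hd0) ^ n := by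
      ext
      rw [Units.val_pow_eq_pow_val, Units.val_mk0, hd]
    rw [hc, map_pow, map_pow, MonoidHom.pow_apply, symHom_apply, symCl_tors]
  have hlow : low (symHom hn hζ) H ⊥ z ≤ (⊥ : Subgroup (BrauerGroup.{u, u} K)) := by
    refine sup_le le_rfl ?_
    rw [Subgroup.closure_le]
    rintro γ ⟨a, ha, u, rfl⟩
    rw [hconst a ha]
    exact Subgroup.one_mem _
  have hS' : S = Subgroup.closure (Set.range fun q : (Fin g ⊕ Fin g) × (Fin g ⊕ Fin g) =>
      symHom hn hζ (z q.1) (z q.2)) := by
    rw [hS]
    congr 1
    ext γ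
    constructor
    · rintro ⟨u, v, rfl⟩
      exact ⟨(u, v), ((isSym_iff hn hζ (z u) (z v) (θ u v)).1 (hθ u v)).symm⟩
    · rintro ⟨q, rfl⟩
      exact ⟨q.1, q.2, ((isSym_iff hn hζ (z q.1) (z q.2) (θ q.1 q.2)).1 (hθ q.1 q.2)).symm⟩
  have hTc : Nat.card T = Nat.card {α : BrauerGroup.{u, u} K // α ∈ S ∧
      ∃ x y : Fin (g - 1) → Kˣ, α = ∏ i, symHom hn hζ (x i) (y i)} := by
    refine Nat.card_congr (Equiv.subtypeEquivRight fun α => ?_)
    rw [hT]
    constructor
    · rintro ⟨h1, ⟨s, t, σ, h2, h3⟩, -⟩
      refine ⟨h1, s, t, ?_⟩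
      rw [h3]
      exact Finset.prod_congr rfl fun i _ => (isSym_iff hn hζ _ _ _).1 (h2 i)
    · rintro ⟨h1, x, y, h2⟩
      refine ⟨h1, ⟨x, y, fun i => symCl hn hζ (x i) (y i), fun i => (isSym_iff hn hζ _ _ _).2 rfl, h2⟩, ?_⟩
      rw [h2]
      exact (hasRep_prod hn hζ (g - 1) x y).indDvd
  -- the reduction of a relation
  let Dp : ∀ (p : n.primeFactors) (w : Fin g ⊕ Fin g → Fin g ⊕ Fin g → ℤ), altS (ZMod p) (Fin g ⊕ Fin g) :=
    fun p w => ⟨red p (dif w), (alt_dif w).map' _⟩
  have hfac1 : ∀ p : n.primeFactors, ¬ (p : ℕ) ^ 2 ∣ n → n.factorization p = 1 := by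
    intro p hp2
    have hp := Nat.prime_of_mem_primeFactors p.2
    have h1 : 1 ≤ n.factorization p := (hp.pow_dvd_iff_le_factorization hn.ne').1
      (by rw [pow_one]; exact Nat.dvd_of_mem_primeFactors p.2)
    have h2 : ¬ 2 ≤ n.factorization p := fun h => hp2 ((hp.pow_dvd_iff_le_factorization hn.ne').2 h)
    omega
  have hfac2 : ∀ p : n.primeFactors, ∃ j, n.factorization p = j + 1 := by
    intro p
    have hp := Nat.prime_of_mem_primeFactors p.2
    have h1 : 1 ≤ n.factorization p := (hp.pow_dvd_iff_le_factorization hn.ne').1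
      (by rw [pow_one]; exact Nat.dvd_of_mem_primeFactors p.2)
    exact ⟨n.factorization p - 1, by omega⟩
  have hcp : ∀ p : n.primeFactors, (Fintype.card (ZMod p) : ℚ) = (p : ℕ) := fun p => by rw [ZMod.card]
  have key1 : ∀ w : Fin g ⊕ Fin g → Fin g ⊕ Fin g → ℤ, ∏ u, ∏ v, θ u v ^ w u v = 1 →
      (∀ p : ℕ, p.Prime → p ∣ n → ∃ u v, ¬ (p : ℤ) ∣ w u v - w v u) → Finite S ∧
      (Nat.card S : ℚ) * ∏ p ∈ n.primeFactors,
        (if p ^ 2 ∣ n then max (1 / 6) (1 / 2 - 3 / (2 * (p : ℚ))) else 1 / 2) ≤ Nat.card T := by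
    intro w hw hwp
    have hD : ∀ p : n.primeFactors, Dp p w ≠ 0 := by
      intro p h
      obtain ⟨u, v, huv⟩ := hwp p (Nat.prime_of_mem_primeFactors p.2) (Nat.dvd_of_mem_primeFactors p.2)
      apply huv
      have h1 := congrFun (congrFun (congrArg Subtype.val h) u) v
      rw [← ZMod.intCast_zmod_eq_zero_iff_dvd]
      exact h1
    have h := transfer (s := symHom hn hζ) (κ := Unit) (fun a b => symCl_anti hn hζ a b) n hn
      (fun a b => symCl_tors hn hζ a b) (-1) H hneg (fun a => symCl_diag hn hζ a) ⊥ z hlow (g := g) (fun _ => w)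
      (fun _ => by rw [hQ, hw]) (fun p => if p ^ 2 ∣ n then max (1 / 6) (1 / 2 - 3 / (2 * (p : ℚ))) else 1 / 2)
      (fun p _ => one_nonneg n p)
      (fun p A => if (p : ℕ) ^ 2 ∣ n then ∃ t : ZMod p, IsSimpS (Dp p w) (A + t • Dp p w)
        else ∃ t : ZMod p, IsDeg (A + t • Dp p w))
      (by
        intro p b hb hG
        split_ifs at hG with hp2
        · obtain ⟨t, ht⟩ := hG
          obtain ⟨j, hj⟩ := hfac2 p
          rw [hj]
          refine good_simp hg hI _ b hb (fun _ : Unit => t) () ?_ j
          have e : ∑ i : Unit, t • red (p : ℕ) (dif w) = t • red (p : ℕ) (dif w) := by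
            rw [Finset.univ_unique, Finset.sum_singleton]
          rw [e]
          exact ht
        · obtain ⟨t, ht⟩ := hG
          rw [hfac1 p hp2, pow_one]
          refine good_deg hg hI _ b hb (fun _ : Unit => t) ?_
          have e : ∑ i : Unit, t • red (p : ℕ) (dif w) = t • red (p : ℕ) (dif w) := by
            rw [Finset.univ_unique, Finset.sum_singleton]
          rw [e]
          exact ht)
      (by
        intro p
        have hMp : (0 : ℚ) ≤ cA (ZMod p) (Fin g ⊕ Fin g) := Nat.cast_nonneg _
        by_cases hp2 : (p : ℕ) ^ 2 ∣ n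
        · simp only [if_pos hp2]
          rw [mul_max_of_nonneg _ _ hMp]
          refine max_le ?_ ?_
          · exact simp_sixth hg hI (hD p)
          · have h1 := simp_half hg hI (hD p)
            rw [hcp] at h1
            exact h1
        · simp only [if_neg hp2]
          have h1 := half hg hI (hD p)
          have h2 : (cA (ZMod p) (Fin g ⊕ Fin g) : ℚ) ≤
              2 * ((Finset.univ.filter fun A : altS (ZMod p) (Fin g ⊕ Fin g) =>
                ∃ t : ZMod p, IsDeg (A + t • Dp p w)).card : ℚ) := by
            exact_mod_cast h1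
          linarith)
    rw [← hS', ← hTc] at h
    exact h
  refine ⟨?_, fun w hw hwp => (key1 w hw hwp).2, ?_⟩
  · -- finiteness does not need a relation
    haveI : NeZero n := ⟨hn.ne'⟩
    have h1 : ∀ α ∈ S, ∃ w : Fin g ⊕ Fin g → Fin g ⊕ Fin g → ZMod n, Q (symHom hn hζ) z (lft w) = α := by
      intro α hα
      rw [hS'] at hα
      exact psi_surj n (fun a b => symCl_tors hn hζ a b) z α hα
    have h2 : (S : Set (BrauerGroup.{u, u} K)) ⊆ Set.range fun w : Fin g ⊕ Fin g → Fin g ⊕ Fin g → ZMod n =>
        Q (symHom hn hζ) z (lft w) := fun α hα => h1 α hα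
    exact ((Set.finite_range _).subset h2).to_subtype
  · intro w w' hw hw' hind
    let W : Fin 2 → Fin g ⊕ Fin g → Fin g ⊕ Fin g → ℤ := ![w, w']
    have hD : ∀ p : n.primeFactors, LinearIndependent (ZMod p) ![Dp p w, Dp p w'] := by
      intro p
      rw [LinearIndependent.pair_iff]
      intro s t hst
      obtain ⟨a, rfl⟩ := ZMod.intCast_surjective s
      obtain ⟨b, rfl⟩ := ZMod.intCast_surjective t
      have h1 := hind p (Nat.prime_of_mem_primeFactors p.2) (Nat.dvd_of_mem_primeFactors p.2) a b (by
        intro u v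
        have h2 := congrFun (congrFun (congrArg Subtype.val hst) u) v
        rw [← ZMod.intCast_zmod_eq_zero_iff_dvd]
        push_cast
        have h3 : (a : ZMod p) * ((w u v - w v u : ℤ) : ZMod p) + (b : ZMod p) * ((w' u v - w' v u : ℤ) : ZMod p) = 0 :=
          h2
        push_cast at h3
        exact h3)
      exact ⟨(ZMod.intCast_zmod_eq_zero_iff_dvd _ _).2 h1.1, (ZMod.intCast_zmod_eq_zero_iff_dvd _ _).2 h1.2⟩
    have h := transfer (s := symHom hn hζ) (κ := Fin 2) (fun a b => symCl_anti hn hζ a b) n hn
      (fun a b => symCl_tors hn hζ a b) (-1) H hneg (fun a => symCl_diag hn hζ a) ⊥ z hlow (g := g) W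
      (fun i => by
        fin_cases i
        · exact (hQ w).trans hw
        · exact (hQ w').trans hw')
      (fun p => if p ^ 2 ∣ n then max (1 / 6) (1 - 4 / (p : ℚ)) else max (1 / 2) (1 - 2 / ((p : ℚ) + 1)))
      (fun p _ => two_nonneg n p)
      (fun p A => if (p : ℕ) ^ 2 ∣ n then ∃ t : ZMod p × ZMod p, IsSimpS (Dp p w) (A + (t.1 • Dp p w + t.2 • Dp p w'))
        else ∃ t : ZMod p × ZMod p, IsDeg (A + (t.1 • Dp p w + t.2 • Dp p w')))
      (by
        intro p b hb hG
        have e : ∀ t : ZMod p × ZMod p, ∑ i : Fin 2, (![t.1, t.2] : Fin 2 → ZMod p) i • red (p : ℕ) (dif (W i)) =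
            t.1 • red (p : ℕ) (dif w) + t.2 • red (p : ℕ) (dif w') := fun t => by
          rw [Fin.sum_univ_two]
          rfl
        split_ifs at hG with hp2
        · obtain ⟨t, ht⟩ := hG
          obtain ⟨j, hj⟩ := hfac2 p
          rw [hj]
          refine good_simp hg hI W b hb ![t.1, t.2] 0 ?_ j
          rw [e]
          exact ht
        · obtain ⟨t, ht⟩ := hG
          rw [hfac1 p hp2, pow_one]
          refine good_deg hg hI W b hb ![t.1, t.2] ?_
          rw [e]
          exact ht)
      (by
        intro p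
        have hMp : (0 : ℚ) ≤ cA (ZMod p) (Fin g ⊕ Fin g) := Nat.cast_nonneg _
        have hD0 : Dp p w ≠ 0 := fun h => (hD p).ne_zero 0 h
        by_cases hp2 : (p : ℕ) ^ 2 ∣ n
        · simp only [if_pos hp2]
          rw [mul_max_of_nonneg _ _ hMp]
          refine max_le ?_ ?_
          · refine (simp_sixth hg hI hD0).trans ?_
            refine Nat.cast_le.2 (Finset.card_le_card fun A hA => ?_)
            rw [Finset.mem_filter] at hA ⊢
            obtain ⟨-, t, ht⟩ := hA
            exact ⟨Finset.mem_univ _, (t, 0), by rw [zero_smul, add_zero]; exact ht⟩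
          · have h1 := simp_most hg hI (hD p)
            rw [hcp] at h1
            exact h1
        · simp only [if_neg hp2]
          rw [mul_max_of_nonneg _ _ hMp]
          refine max_le ?_ ?_
          · have h1 := half hg hI hD0
            have h2 : (cA (ZMod p) (Fin g ⊕ Fin g) : ℚ) ≤
                2 * ((Finset.univ.filter fun A : altS (ZMod p) (Fin g ⊕ Fin g) =>
                  ∃ t : ZMod p, IsDeg (A + t • Dp p w)).card : ℚ) := by
              exact_mod_cast h1
            have h3 : ((Finset.univ.filter fun A : altS (ZMod p) (Fin g ⊕ Fin g) =>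
                  ∃ t : ZMod p, IsDeg (A + t • Dp p w)).card : ℚ) ≤
                ((Finset.univ.filter fun A : altS (ZMod p) (Fin g ⊕ Fin g) =>
                  ∃ t : ZMod p × ZMod p, IsDeg (A + (t.1 • Dp p w + t.2 • Dp p w'))).card : ℚ) := by
              refine Nat.cast_le.2 (Finset.card_le_card fun A hA => ?_)
              rw [Finset.mem_filter] at hA ⊢
              obtain ⟨-, t, ht⟩ := hA
              exact ⟨Finset.mem_univ _, (t, 0), by rw [zero_smul, add_zero]; exact ht⟩
            linarith
          · have h1 := most hg hI (hD p)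
            rw [ZMod.card] at h1
            have hp1 : 1 ≤ (p : ℕ) := (Nat.prime_of_mem_primeFactors p.2).one_le
            have h2 : (((p : ℕ) : ℚ) - 1) * (cA (ZMod p) (Fin g ⊕ Fin g) : ℚ) ≤
                (((p : ℕ) : ℚ) + 1) * ((Finset.univ.filter fun A : altS (ZMod p) (Fin g ⊕ Fin g) =>
                  ∃ t : ZMod p × ZMod p, IsDeg (A + (t.1 • Dp p w + t.2 • Dp p w'))).card : ℚ) := by
              have h3 : (((p : ℕ) - 1 : ℕ) : ℚ) = ((p : ℕ) : ℚ) - 1 := by
                rw [Nat.cast_sub hp1, Nat.cast_one]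
              rw [← h3]
              exact_mod_cast h1
            have hpos : (0 : ℚ) < ((p : ℕ) : ℚ) + 1 := by positivity
            refine le_of_mul_le_mul_left ?_ hpos
            refine le_trans (le_of_eq ?_) h2
            field_simp
            ring)
    rw [← hS', ← hTc] at h
    exact h.2

end Pool.Agent.Results.MP_43d240_ag.HalfOfClasses
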