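import Mathlib
import Pool.Agent.V5helper88.PI.Crt

/-! # Unramified period-index for large powers of abelian varieties, all periods

Let `B` be an abelian variety of dimension `b` over an algebraically closed field `k`, with a polarisation of degree
prime to `n` (for instance a principal one), `n` prime to the characteristic. The group `H^1(B, μ_n)` has a basis
given by functions `y_1, ..., y_(2b)` on `B` whose divisors are divisible by `n`, and the class of the polarisation
gives an integral matrix `w` such that `w - w^T` is invertible modulo `n` and `∑ w(u, v) (y_u, y_v) = 0` in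
`Br(k(B))`. Let `z_(i,u)` be the function `y_u` on the factor `i` of `B^m`. As `y_u(x + x')` and `y_u(x) y_u(x')`
differ by an `n`-th power, the sum of the relations for `B → B × B`, `(x, x') ↦ x + x'`, shows
`∑ w(u, v) ((z_(i,u), z_(i',v)) + (z_(i',u), z_(i,v))) = 0` for all `i, i'` (the hypothesis `hrel`).

* Let `C` be an abelian variety of dimension `c` and let `h_1, ..., h_(2c)` be the functions for `C`. The classes in
  `Br(B^m × C)` killed by `n` are sums of symbols of the functions `z_(i,u)` and `h_l`. The theorem (with `ρ = 2c`,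
  `j = 1`, `t = b m + c - 1`) shows that they are sums of `dim(B^m × C) - 1` symbols of degree `n` if
  `m ≥ 275 b^2 + 4 b c`. So the conjecture is true for all classes on `B^m × C` whose period divides `n`.
* With `j = 2r - 1` the index divides `n^(b m - r)` on `B^m` if `m ≥ 265 b^2 + 20 b^2 r`: the saving is unbounded,
  and the exponent is at most `(1 - 1 / (20 b^3)) dim(B^m)` up to a constant.
* Let `Y` be any smooth projective variety and let `H^1(Y, μ_n)` be generated by the classes of `h_1, ..., h_ρ`. The
  classes in `Br(B^m × Y)` killed by `n` are sums of symbols of the `z_(i,u)` and `h_l` and of a class `β` in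
  `Br(Y)`. If the index of the classes in `Br(Y)` of period dividing `n` divides `n^f`, with any `f` (there is such an
  `f` which works for all `n` by Huybrechts and Mattei), then the index of all these classes divides
  `n^(b m + f - r)` for large `m` (`j = 2r + ρ - 1`). So the conjecture is true for `B^m × Y` for all large `m`.

There is no condition on the period `n`; it may be divisible by high powers of primes.

## Proof

A class is given by an alternating form `A` on `V = R^m ⊗ R^(2b) ⊕ R^ρ`, `R = ℤ/n`, and we may add `S ⊗ Θ`,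
`Θ = w - w^T`, for the symmetric matrices `S = T + T^T`. If `A + S ⊗ Θ` kills `j` vectors which are a part of a basis,
then it is a sum of `t` products of two linear forms, and the class is a sum of `t` symbols. It suffices to take
`n = p^e`. We look for vectors `v_k = ∑_a x_(k,a) ⊗ e_a`, `a = 1, ..., 2b`, such that the `x_(k,a)` are a part of a basis
of `R^m` and `A(x_(k,a) ⊗ e_a, x_μ ⊗ e_a') = 0` for all `k, a, μ, a'`. Then there is a matrix `S` with the desired property.
The vectors `x_(k,a)` are found one after the other: besides linear equations each of them has to be a zero of `2b`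
quadratic forms (over `ℤ/p^e`, also for `p = 2`). Such zeros exist in few variables, by an induction: a form in 33
orthogonal variables is diagonal; there are at most eight classes of elements of `ℤ/p^e` modulo squares, so five of the
diagonal entries are in one class, and as `-1` is a sum of four squares there is a zero.
-/

set_option autoImplicit false
set_option linter.all false

namespace Pool.Agent.Results.MP_43d240_ag.LargePowers

open Pool.Agent.H552R3.SymBr Pool.Agent.H552R3.SymPred Pool.Agent.Y109.PI

universe u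

theorem bound (b m ρ j : ℕ) (hb : 0 < b) (hm : 265 * b ^ 2 + 10 * b ^ 2 * j + 2 * b * ρ ≤ m) :
    V5helper88.PI.nv (2 * b) + (j * (2 * b)) * (2 * (2 * b) + 1) + 2 * b * ρ ≤ m := by
  have h1 := V5helper88.PI.nv_le (2 * b)
  have h2 : b ≤ b ^ 2 := by nlinarith
  have h3 : 1 ≤ b ^ 2 := Nat.one_le_pow _ _ hb
  have h4 : b * j ≤ b ^ 2 * j := Nat.mul_le_mul_right _ h2
  have h5 : (j * (2 * b)) * (2 * (2 * b) + 1) = 8 * (b ^ 2 * j) + 2 * (b * j) := by ring
  have h6 : 33 * ((2 * b) ^ 2 + 2 * (2 * b)) = 132 * b ^ 2 + 132 * b := by ring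
  have h7 : 10 * b ^ 2 * j = 10 * (b ^ 2 * j) := by ring
  omega

/-- Let `K` be an extension of an algebraically closed field `k`, let `ζ ∈ K` be a primitive `n`-th root of unity
(`n ≥ 1` arbitrary), let `z_(i,u)` (`i = 1, ..., m`, `u = 1, ..., 2b`) and `h_1, ..., h_ρ` be nonzero elements of `K`, and
let `w` be an integral `2b × 2b` matrix such that the determinant of `w - w^T` is prime to `n`. Assume that for all
`i, i'` the combination `∑_(u,v) w(u,v) ((z_(i,u), z_(i',v)) + (z_(i',u), z_(i,v)))` of symbols of degree `n` is zero in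
the Brauer group of `K`. Let `G` be the group generated by `kˣ`, the `z_(i,u)` and the `h_l`. Let `j` and `t` be natural
numbers with `m ≥ 265 b^2 + 10 b^2 j + 2 b ρ` and `2 b m + ρ ≤ 2 t + 1 + j`. Then every class in the subgroup of `Br(K)`
generated by the symbols of degree `n` with entries in `G` is the sum of `t` symbols of degree `n`. For every class `β`
in `Br(K)` whose index divides `f`, the index of `α + β` divides `n^t f` (so for `β = 0` the index of `α` divides
`n^t`). -/
theorem result (b m ρ j t : ℕ) (hb : 0 < b) (hm : 265 * b ^ 2 + 10 * b ^ 2 * j + 2 * b * ρ ≤ m)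
    (ht : 2 * b * m + ρ ≤ 2 * t + 1 + j)
    {k K : Type u} [Field k] [IsAlgClosed k] [Field K] [Algebra k K] (n : ℕ) (hn : 0 < n)
    (ζ : K) (hζ : IsPrimitiveRoot ζ n) (z : Fin m × Fin (2 * b) → Kˣ) (h : Fin ρ → Kˣ)
    (θ : Fin m × Fin (2 * b) → Fin m × Fin (2 * b) → BrauerGroup.{u, u} K)
    (hθ : ∀ x y, IsSym n ζ (z x) (z y) (θ x y))
    (w : Fin (2 * b) → Fin (2 * b) → ℤ) (hw : IsCoprime (Matrix.of fun u v => w u v - w v u).det (n : ℤ))
    (hrel : ∀ i i', ∏ u, ∏ v, (θ (i, u) (i', v) * θ (i', u) (i, v)) ^ w u v = 1)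
    (G : Subgroup Kˣ) (hG : G = Subgroup.closure (Set.range (Units.map (algebraMap k K).toMonoidHom) ∪
      Set.range z ∪ Set.range h))
    (α : BrauerGroup.{u, u} K) (hα : α ∈ Subgroup.closure {γ | ∃ a ∈ G, ∃ b ∈ G, IsSym n ζ a b γ}) :
    (∃ (x y : Fin t → Kˣ) (σ : Fin t → BrauerGroup.{u, u} K),
      (∀ i, IsSym n ζ (x i) (y i) (σ i)) ∧ α = ∏ i, σ i) ∧
    ∀ (β : BrauerGroup.{u, u} K) (f : ℕ), 0 < f → IndDvd β f → IndDvd (α * β) (n ^ t * f) := by
  let H : Subgroup Kˣ := (Units.map (algebraMap k K).toMonoidHom).range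
  have hneg : (-1 : Kˣ) ∈ H := by
    refine ⟨-1, ?_⟩
    ext
    simp
  have hconst : ∀ a ∈ H, ∀ b, symHom hn hζ a b = 1 := by
    rintro _ ⟨c, rfl⟩ b
    obtain ⟨d, hd⟩ := IsAlgClosed.exists_pow_nat_eq (c : k) hn
    have hd0 : d ≠ 0 := by
      rintro rfl
      rw [zero_pow hn.ne'] at hd
      exact c.ne_zero hd.symm
    have hc : c = (Units.mk0 d hd0) ^ n := by
      ext
      rw [Units.val_pow_eq_pow_val, Units.val_mk0, hd]
    rw [hc, map_pow, map_pow, MonoidHom.pow_apply, symHom_apply, symCl_tors]
  let Z : (Fin m × Fin (2 * b)) ⊕ Fin ρ → Kˣ := Sum.elim z h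
  have hGH : G = H ⊔ Subgroup.closure (Set.range Z) := by
    rw [hG, Set.union_assoc, Subgroup.closure_union, Set.Sum.elim_range]
    congr 1
    exact Subgroup.closure_eq H
  have hα' : α ∈ Subgroup.closure {γ | ∃ a ∈ H ⊔ Subgroup.closure (Set.range Z),
      ∃ b ∈ H ⊔ Subgroup.closure (Set.range Z), γ = symHom hn hζ a b} := by
    have : {γ | ∃ a ∈ G, ∃ b ∈ G, IsSym n ζ a b γ} = {γ | ∃ a ∈ H ⊔ Subgroup.closure (Set.range Z),
      ∃ b ∈ H ⊔ Subgroup.closure (Set.range Z), γ = symHom hn hζ a b} := by
      ext γ
      simp only [Set.mem_setOf_eq, isSym_iff hn hζ, hGH, symHom_apply]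
    rw [← this]; exact hα
  have hθ' : ∀ x y, θ x y = symHom hn hζ (z x) (z y) := fun x y => (isSym_iff hn hζ _ _ _).1 (hθ x y)
  obtain ⟨x, y, hxy⟩ := V5helper88.PI.abs_ten (s := symHom hn hζ) (fun a b => symCl_anti hn hζ a b) n hn
    (fun a b => symCl_tors hn hζ a b) (-1) H hneg (fun a => symCl_diag hn hζ a) hconst
    (c := 2 * b) (r := ρ) (m := m) (by omega) j t Z w hw (fun i i' => by
      rw [← hrel i i', ← Finset.prod_mul_distrib]
      refine Finset.prod_congr rfl fun u _ => ?_
      rw [← Finset.prod_mul_distrib]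
      refine Finset.prod_congr rfl fun v _ => ?_
      rw [hθ', hθ', mul_zpow]
      rfl) (bound b m ρ j hb hm) (by rw [mul_comm m]; exact ht) α hα'
  refine ⟨⟨x, y, fun i => symCl hn hζ (x i) (y i), fun i => (isSym_iff hn hζ _ _ _).2 rfl, hxy⟩, fun β f hf hβ => ?_⟩
  rw [hxy]
  exact ((hasRep_prod hn hζ t x y).mul (hβ.hasRep hf)).indDvd

end Pool.Agent.Results.MP_43d240_ag.LargePowers
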