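import Mathlib
import Pool.Agent.V5helper95.PI.Unim
import Pool.Agent.N394.PX.Idx

/-! Unramified period-index for products `V × A`, `A` an abelian variety of dimension `g`: a positive proportion of the
classes, uniformly in `n`, `g`, `V` and `A`.

Let `A` be an abelian variety of dimension `g` over an algebraically closed field `k`, `V` a smooth projective variety
over `k` with function field `L`, `K` the function field of `V × A`, and let `n` be prime to the characteristic. The
group `H^1(A, μ_n)` has a basis given by functions `z_1, ..., z_(2g)` on `A` whose divisors are divisible by `n`. The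
finite group `Br(V × A)[n]` consists of sums of symbols with entries in the group generated by `Lˣ` and the `z_u`, and
contains the symbols `(z_u, z_v)`. A divisor class `D` on `A` gives a relation `∑ w(u, v) (z_u, z_v) = 0`, and if it is
not divisible by `p`, for example if it is a part of a basis of `NS(A)`, then `w - wᵀ ≢ 0` modulo `p`.

The theorem says that, for **all** `n`, `V` and `A`, more than a quarter (at least 27 percent) of the classes in
`Br(V × A)[n]` are sums of `g` symbols of degree `n` and a class from `Br(L)`. If `V` is a curve, their index divides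
`n ^ g`, as predicted by the conjecture (`dim (V × A) = g + 1`); if the index of the classes generated by symbols of
degree `n` over `L` divides `m` (for surfaces `m = n` by the theorem of de Jong, and `m = n ^ (dim V - 1)` is predicted by
the conjecture for `V`), then their index divides `m n ^ g`. More precisely the proportion is at least the product of
the numbers `1 - (p ^ 3 + p ^ 2 - 1) / (p (p ^ 2 - 1) ^ 2)` over the prime numbers `p ∣ n` which divide all
intersection numbers `D_1 ⋯ D_g` of divisors on `A` (in particular all `p ∣ n` with `p > g` can be left out if `p` does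
not divide the degree of some polarisation); `1 - 11 / 18` for `p = 2`, `1 - 35 / 192` for `p = 3`, and so on.

The starting result IntersectionNumbers is the case that `n` is prime to the greatest common divisor `N` of the
intersection numbers; for an abelian variety whose Néron-Severi group is generated by a polarisation of type
`(d_1, ..., d_g)` this is `N = g! d_1 ⋯ d_g`, so nothing was known for any prime number `p ≤ g` or `p ∣ d_1 ⋯ d_g`, except
for the classes from special families, and for `n` divisible by such primes the bound proved there for the index is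
larger than predicted.

Proof. A class is given by an alternating form `b` over `ℤ / n`, up to symbols with an entry in `L`. If `b + t D` is
nondegenerate modulo all prime divisors `p` of `n` (with `t` depending on `p`), it is a sum of `g` hyperbolic planes
and the symbols with an entry in `L` can be absorbed. For `D ≢ 0` modulo `p` the number of the alternating forms `b`
over `𝔽_p` such that `b` and `b + D` are degenerate is at most
`(p ^ 3 + p ^ 2 - 1) / (p (p ^ 2 - 1) ^ 2)` times the number of all of them: this follows by counting the pairs of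
kernel vectors of `b` and `b + D`. -/

set_option autoImplicit false
set_option linter.all false

open scoped TensorProduct

namespace Pool.Agent.Results.MP_43d240_ag.QuarterOfProductClasses

open Pool.Agent.Helper18.Br Pool.Agent.H552R3.SymBr Pool.Agent.H552R3.SymPred Pool.Agent.H552R3.Tsen
  Pool.Agent.Y109.PI Pool.Agent.N394.PX Pool.Agent.V5helper95.PI

universe u

/-- Let `K` be an extension of an algebraically closed field `k`, let `ζ ∈ k` be a primitive `n`-th root of
unity, `L` an intermediate field, and let `z_1, ..., z_(2g)`, `g ≥ 1`, be nonzero elements of `K`. Let `w_i` (`i` in a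
finite set) be integral matrices of size `2 g` such that the combinations `∑ w_i(u, v) (z_u, z_v)` of symbols of degree
`n` are combinations of symbols `(a, b)` of degree `n` with `a ∈ L` and `b ∈ L ∪ {z_1, ..., z_(2g)}` (for instance such
that they vanish). Let `N` be an integral combination of intersection numbers (the coefficients of `X_1 ⋯ X_g` in the
Pfaffians of `∑ X_i (w_(e_i) - w_(e_i)^T)`), for instance `N = 0`, and suppose that for every prime number `p` which
divides `n` and `N` one of the matrices `w_i - w_i^T` is not divisible by `p`. Let `U` be a finite subgroup of the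
subgroup of `Br(K)` generated by all symbols of degree `n` with entries in the group generated by `Lˣ` and the `z_u`,
such that the symbols `(z_u, z_v)` are in `U` (or at least in `U` modulo the symbols with an entry in `L` as above),
and let `T` be the set of the classes `α` in `U` with the following properties:

* `α` is the sum of `g` symbols of degree `n` and of a class `β` generated by symbols of degree `n` with entries in
  `L`, where `β = 0` if `L` has transcendence degree at most one over `k`;
* if `L` has transcendence degree at most one over `k`, then the index of `α` divides `n ^ g`;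
* if the index of every class generated by symbols of degree `n` with entries in `L` divides `m`, then the index of
  `α` divides `m n ^ g`.

Then `|T|` is at least `|U|` times the product of the numbers `1 - (p ^ 3 + p ^ 2 - 1) / (p (p ^ 2 - 1) ^ 2)` over the
prime numbers `p` dividing `n` and `N`. In particular `|T| ≥ (27 / 100) |U|`. -/
theorem result {k K : Type u} [Field k] [IsAlgClosed k] [Field K] [Algebra k K] (n : ℕ) (hn : 0 < n)
    (ζ : k) (hζ : IsPrimitiveRoot ζ n) (L : IntermediateField k K) (g : ℕ) (hg : 0 < g) (z : Fin (2 * g) → Kˣ)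
    (θ : Fin (2 * g) → Fin (2 * g) → BrauerGroup.{u, u} K)
    (hθ : ∀ u v, IsSym n (algebraMap k K ζ) (z u) (z v) (θ u v))
    {κ : Type} [Fintype κ] (w : κ → Fin (2 * g) → Fin (2 * g) → ℤ)
    (hrel : ∀ i, ∏ u, ∏ v, θ u v ^ w i u v ∈ Subgroup.closure {γ | ∃ a b : Kˣ, (a : K) ∈ L ∧
      ((b : K) ∈ L ∨ b ∈ Set.range z) ∧ IsSym n (algebraMap k K ζ) a b γ})
    (N : ℕ)
    (hN : (N : ℤ) ∈ Ideal.span (Set.range fun e : Fin g → κ =>
      inter g fun i => Matrix.of fun u v => w (e i) u v - w (e i) v u))
    (hw : ∀ p : ℕ, p.Prime → p ∣ n → p ∣ N → ∃ i u v, ¬ (p : ℤ) ∣ w i u v - w i v u)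
    (G : Subgroup Kˣ) (hG : G = Subgroup.closure ({a : Kˣ | (a : K) ∈ L} ∪ Set.range z))
    (V : Subgroup (BrauerGroup.{u, u} K))
    (hV : V = Subgroup.closure {γ | ∃ a b : Kˣ, (a : K) ∈ L ∧ (b : K) ∈ L ∧ IsSym n (algebraMap k K ζ) a b γ})
    (U : Subgroup (BrauerGroup.{u, u} K)) [Finite U]
    (hU : U ≤ Subgroup.closure {γ | ∃ a ∈ G, ∃ b ∈ G, IsSym n (algebraMap k K ζ) a b γ})
    (hUz : ∀ u v, θ u v ∈ U ⊔ Subgroup.closure {γ | ∃ a b : Kˣ, (a : K) ∈ L ∧
      ((b : K) ∈ L ∨ b ∈ Set.range z) ∧ IsSym n (algebraMap k K ζ) a b γ})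
    (T : Set (BrauerGroup.{u, u} K))
    (hT : T = {α | α ∈ U ∧
      (∃ (s t : Fin g → Kˣ) (σ : Fin g → BrauerGroup.{u, u} K) (β : BrauerGroup.{u, u} K),
        (∀ i, IsSym n (algebraMap k K ζ) (s i) (t i) (σ i)) ∧ β ∈ V ∧ (Algebra.trdeg k L ≤ 1 → β = 1) ∧
        α = (∏ i, σ i) * β) ∧
      (Algebra.trdeg k L ≤ 1 → IndDvd α (n ^ g)) ∧
      ∀ m : ℕ, 0 < m → (∀ β ∈ V, IndDvd β m) → IndDvd α (m * n ^ g)}) :
    (Nat.card U : ℚ) * ∏ p ∈ n.primeFactors with p ∣ N,
      (1 - ((p : ℚ) ^ 3 + (p : ℚ) ^ 2 - 1) / ((p : ℚ) * ((p : ℚ) ^ 2 - 1) ^ 2)) ≤ Nat.card T ∧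
    27 * Nat.card U ≤ 100 * Nat.card T := by
  classical
  have hK := rootK K hζ
  -- the subgroup `H = Lˣ`
  let H : Subgroup Kˣ :=
    { carrier := {x : Kˣ | (x : K) ∈ L}
      mul_mem' := fun {a b} ha hb => by
        change ((a * b : Kˣ) : K) ∈ L
        rw [Units.val_mul]; exact L.mul_mem ha hb
      one_mem' := L.one_mem
      inv_mem' := fun {a} ha => by
        change ((a⁻¹ : Kˣ) : K) ∈ L
        rw [Units.val_inv_eq_inv_val]; exact L.inv_mem ha }
  have hneg : (-1 : Kˣ) ∈ H := by
    change ((-1 : Kˣ) : K) ∈ L
    rw [Units.val_neg, Units.val_one]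
    exact L.neg_mem L.one_mem
  have hVH : ∀ a ∈ H, ∀ b ∈ H, symHom hn hK a b ∈ V := fun a ha b hb => by
    rw [hV]
    exact Subgroup.subset_closure ⟨a, b, ha, hb, (isSym_iff hn hK a b _).2 rfl⟩
  have hGH : G = H ⊔ Subgroup.closure (Set.range z) := by
    rw [hG, Subgroup.closure_union]
    congr 1
    exact Subgroup.closure_eq H
  have hsets : {γ | ∃ a ∈ G, ∃ b ∈ G, IsSym n (algebraMap k K ζ) a b γ} =
      {γ | ∃ a ∈ H ⊔ Subgroup.closure (Set.range z),
      ∃ b ∈ H ⊔ Subgroup.closure (Set.range z), γ = symHom hn hK a b} := by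
    ext γ
    simp only [Set.mem_setOf_eq, isSym_iff hn hK, hGH, symHom_apply]
  rw [hsets] at hU
  have hlow : Subgroup.closure {γ | ∃ a b : Kˣ, (a : K) ∈ L ∧
      ((b : K) ∈ L ∨ b ∈ Set.range z) ∧ IsSym n (algebraMap k K ζ) a b γ} ≤ low (symHom hn hK) H V z := by
    refine (Subgroup.closure_le (low (symHom hn hK) H V z)).2 ?_
    rintro γ ⟨a, b, ha, hb, hab⟩
    rw [isSym_iff hn hK] at hab
    subst hab
    rcases hb with hb | ⟨i, rfl⟩
    · exact low_V (symHom hn hK) (hVH a ha b hb)
    · exact low_sym (symHom hn hK) (V := V) (z := z) (H := H) ha i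
  have hrel' : ∀ i, Q (symHom hn hK) z (w i) ∈ low (symHom hn hK) H V z := by
    intro i
    have h1 : Q (symHom hn hK) z (w i) = ∏ u, ∏ v, θ u v ^ w i u v := by
      rw [Q, Fintype.prod_prod_type]
      refine Finset.prod_congr rfl fun u _ => Finset.prod_congr rfl fun v _ => ?_
      rw [(isSym_iff hn hK (z u) (z v) (θ u v)).1 (hθ u v), symHom_apply]
    rw [h1]
    exact hlow (hrel i)
  have hUz' : ∀ u v, symHom hn hK (z u) (z v) ∈ U ⊔ low (symHom hn hK) H V z := by
    intro u v
    have h1 : symHom hn hK (z u) (z v) = θ u v := by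
      rw [(isSym_iff hn hK (z u) (z v) (θ u v)).1 (hθ u v), symHom_apply]
    rw [h1]
    exact sup_le_sup_left hlow U (hUz u v)
  have hI : Fintype.card (Fin (2 * g)) = 2 * g := Fintype.card_fin _
  have hVbot : Algebra.trdeg k L ≤ 1 → V ≤ ⊥ := by
    intro hL
    rw [hV, Subgroup.closure_le]
    rintro γ ⟨a, b, ha, hb, hab⟩
    have hdep : ¬ AlgebraicIndependent k ![(a : K), (b : K)] := by
      intro h
      have h1 : AlgebraicIndependent k ![(⟨a, ha⟩ : L), (⟨b, hb⟩ : L)] := by
        apply AlgebraicIndependent.of_comp L.val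
        convert h using 1
        funext i
        fin_cases i <;> rfl
      have h2 := h1.lift_cardinalMk_le_trdeg
      have h3 := h2.trans (Cardinal.lift_le.2 hL)
      simp at h3
    have h4 := (isSym_iff hn hK a b γ).1 hab
    rw [SetLike.mem_coe, Subgroup.mem_bot, h4]
    exact tsen hn hζ a b hdep
  -- the reduction of a relation
  let Dp : ∀ (p : n.primeFactors) (i : κ), altS (ZMod p) (Fin (2 * g)) :=
    fun p i => ⟨red p (dif (w i)), (alt_dif (w i)).map' _⟩
  have hcp : ∀ p : n.primeFactors, (Fintype.card (ZMod p) : ℚ) = (p : ℕ) := fun p => by rw [ZMod.card]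
  have htwo : ∀ p : ℕ, p.Prime → (2 : ℚ) ≤ p := fun p hp => by exact_mod_cast hp.two_le
  have h := transferU (s := symHom hn hK) (κ := κ) (fun a b => symCl_anti hn hK a b) n hn
    (fun a b => symCl_tors hn hK a b) (-1) H hneg (fun a => symCl_diag hn hK a) V hVH z hI w hrel' U
    (fun α hα => hU hα) hUz'
    (fun p => if p ∣ N then 1 - tq p else 1)
    (fun p hp => by
      by_cases hpN : p ∣ N
      · simp only [if_pos hpN]
        have := tq_le_one (htwo p hp)
        linarith
      · simp only [if_neg hpN]
        norm_num)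
    (fun p A => (p : ℕ) ∣ N → ∃ i, Dp p i ≠ 0 ∧ ∃ t : ZMod p, ¬ IsDeg (A + t • Dp p i))
    (by
      intro p b hb hG
      have hp := Nat.prime_of_mem_primeFactors p.2
      haveI : NeZero (p : ℕ) := ⟨hp.ne_zero⟩
      by_cases hpN : (p : ℕ) ∣ N
      · obtain ⟨i, -, t, ht⟩ := hG hpN
        refine ⟨Pi.single i (t.val : ℤ), ?_⟩
        have e1 : red (p : ℕ) (b + ∑ j, (Pi.single i (t.val : ℤ) : κ → ℤ) j • dif (w j)) =
            red (p : ℕ) b + t • red (p : ℕ) (dif (w i)) := by
          rw [red_add_sum', Finset.sum_eq_single i]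
          · rw [Pi.single_eq_same, vcast]
          · intro j _ hj
            rw [Pi.single_eq_of_ne hj, Int.cast_zero, zero_smul]
          · intro h; exact absurd (Finset.mem_univ _) h
        rw [e1]
        exact ht
      · have hex : ∃ e : Fin g → κ, ¬ (p : ℤ) ^ (0 + 1) ∣ inter g (fun i => dif (w (e i))) := by
          by_contra hcon
          push Not at hcon
          have h1 : (N : ℤ) ∈ Ideal.span {(p : ℤ)} := by
            refine (Ideal.span_le.2 ?_) hN
            rintro _ ⟨e, rfl⟩
            have h2 := hcon e
            rw [zero_add, pow_one] at h2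
            exact Ideal.mem_span_singleton.2 h2
          have h2 := Ideal.mem_span_singleton.1 h1
          exact hpN (by exact_mod_cast h2)
        obtain ⟨c, P, hP, hPp⟩ := exists_good' g (p : ℕ) hp.pos (fun _ => 0) b (fun i => dif (w i)) hb
          (fun i => alt_dif (w i)) (fun q hq hqp => by
            rw [(Nat.prime_dvd_prime_iff_eq hq hp).1 hqp]
            exact hex)
        refine ⟨c, ?_⟩
        have h2 := hPp p hp dvd_rfl
        rw [zero_add, pow_one] at h2
        rw [← red_det, hP]
        intro h3
        rw [ZMod.intCast_zmod_eq_zero_iff_dvd] at h3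
        exact h2 (Int.Prime.dvd_pow' hp h3 |> fun h => by exact_mod_cast h))
    (by
      intro p
      have hp := Nat.prime_of_mem_primeFactors p.2
      by_cases hpN : (p : ℕ) ∣ N
      · simp only [if_pos hpN]
        obtain ⟨i, u, v, huv⟩ := hw p hp (Nat.dvd_of_mem_primeFactors p.2) hpN
        have hD : Dp p i ≠ 0 := by
          intro h
          apply huv
          have h1 := congrFun (congrFun (congrArg Subtype.val h) u) v
          rw [← ZMod.intCast_zmod_eq_zero_iff_dvd]
          exact h1
        have h1 := nondeg_one hg hI hD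
        rw [hcp] at h1
        refine h1.trans (Nat.cast_le.2 (Finset.card_le_card fun A hA => ?_))
        have hA' := (Finset.mem_filter.1 hA).2
        exact (@Finset.mem_filter _ _ (fun _ => Classical.propDecidable _) _ _).2 ⟨Finset.mem_univ _, fun _ => ⟨i, hD, hA'⟩⟩
      · simp only [if_neg hpN, mul_one]
        refine Nat.cast_le.2 ?_
        rw [cA, ← Finset.card_univ]
        exact Finset.card_le_card fun A _ => (@Finset.mem_filter _ _ (fun _ => Classical.propDecidable _) _ _).2 ⟨Finset.mem_univ _, fun h => absurd h hpN⟩)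
  have hTc : Nat.card {α : BrauerGroup.{u, u} K // α ∈ U ∧
      ∃ x y : Fin g → Kˣ, ∃ v ∈ V, α = (∏ i, symHom hn hK (x i) (y i)) * v} = Nat.card T := by
    refine Nat.card_congr (Equiv.subtypeEquivRight fun α => ?_)
    rw [hT]
    constructor
    · rintro ⟨h1, s, t, β, hβ, hαβ⟩
      refine ⟨h1, ⟨s, t, fun i => symCl hn hK (s i) (t i), β, fun i => (isSym_iff hn hK _ _ _).2 rfl, hβ,
        fun hL => by simpa using hVbot hL hβ, hαβ⟩, fun hL => ?_, fun m hm hVm => ?_⟩
      · have h2 : β = 1 := by simpa using hVbot hL hβ
        rw [hαβ, h2, mul_one]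
        exact (hasRep_prod hn hK g s t).indDvd
      · rw [hαβ, mul_comm m]
        exact ((hasRep_prod hn hK g s t).mul ((hVm β hβ).hasRep hm)).indDvd
    · rintro ⟨h1, ⟨s, t, σ, β, h2, h3, -, h4⟩, -⟩
      refine ⟨h1, s, t, β, h3, ?_⟩
      rw [h4]
      congr 1
      exact Finset.prod_congr rfl fun i _ => (isSym_iff hn hK _ _ _).1 (h2 i)
  rw [hTc, ← Finset.prod_filter] at h
  refine ⟨h, ?_⟩
  have h1 := const_bound (n.primeFactors.filter fun p => p ∣ N)
    (fun p hp => Nat.prime_of_mem_primeFactors (Finset.mem_filter.1 hp).1)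
  have h2 : (27 / 100 : ℚ) * Nat.card U ≤ Nat.card T := by
    refine le_trans ?_ h
    rw [mul_comm]
    exact mul_le_mul_of_nonneg_left h1 (Nat.cast_nonneg _)
  have h3 : (27 : ℚ) * Nat.card U ≤ 100 * Nat.card T := by linarith
  exact_mod_cast h3

end Pool.Agent.Results.MP_43d240_ag.QuarterOfProductClasses
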